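import Pool.Agent.H81.WK.Count

/-! An element outside the basis with large support. -/

set_option linter.unusedSectionVars false

open Module Submodule H15

namespace H54.WK

open H81.WK

variable {ι : Type*} [Fintype ι] {E : Type*} [AddCommGroup E] [Module ℝ E]
  [FiniteDimensional ℝ E]

variable {w : ι → E} {j κ f ν : ℕ} {B : Finset ι} {s : ι → (E →ₗ[ℝ] ℝ)}

/-- an element with large support. -/
theorem exists_g0 (hF : Fam w j κ f ν) (hB : Bas w B s) (hj : 1 ≤ j)
    (hν : 3 * (ν + 1) + 2 ≤ 2 * (κ + f + ν)) :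
    ∃ g0, g0 ∉ B ∧ κ + 1 ≤ 3 * j * {b | b ∈ B ∧ s b (w g0) ≠ 0}.ncard := by
  classical
  have hBc : B.card = κ + j + 1 := by rw [hB.card, hF.dim]
  have hcard := hF.card
  rw [hF.dim] at hcard
  set O : Finset ι := Finset.univ \ B with hO
  have hOc : O.card + 1 = κ + f + ν := by
    have h1 : O.card = Fintype.card ι - B.card := by
      rw [hO, Finset.card_sdiff_of_subset (Finset.subset_univ _), Finset.card_univ]
    have h2 : B.card ≤ Fintype.card ι := Finset.card_le_univ _
    omega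
  set m := O.card with hm
  set h : ι → ℕ := fun b => (O.filter (fun g => s b (w g) ≠ 0)).card with hh
  -- claim 1
  have c1 : ∀ R : Finset ι, R ⊆ B → R.card = j → m ≤ ν + ∑ b ∈ R, h b := by
    intro R hR hRc
    have hz := count_zero hF hB hR hRc.ge
    have hz2 : (O.filter (fun g => ∀ b ∈ R, s b (w g) = 0)).card ≤ ν := by
      refine le_trans (le_of_eq ?_) hz
      rw [← Set.ncard_coe_finset]
      congr 1
      ext g
      simp [hO]
    have hsub : O ⊆ (O.filter (fun g => ∀ b ∈ R, s b (w g) = 0)) ∪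
        R.biUnion (fun b => O.filter (fun g => s b (w g) ≠ 0)) := by
      intro g hg
      rw [Finset.mem_union]
      by_cases h0 : ∀ b ∈ R, s b (w g) = 0
      · exact Or.inl (Finset.mem_filter.2 ⟨hg, h0⟩)
      · push Not at h0
        obtain ⟨b, hb, hb0⟩ := h0
        exact Or.inr (Finset.mem_biUnion.2 ⟨b, hb, Finset.mem_filter.2 ⟨hg, hb0⟩⟩)
    calc m ≤ _ := Finset.card_le_card hsub
      _ ≤ _ := Finset.card_union_le _ _
      _ ≤ ν + ∑ b ∈ R, h b := Nat.add_le_add hz2 Finset.card_biUnion_le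
  -- claim 2
  set Z : Finset ι := B.filter (fun b => j * h b + ν < m) with hZ
  have c2 : Z.card < j := by
    by_contra hcon
    push Not at hcon
    obtain ⟨R, hRZ, hRc⟩ := Finset.exists_subset_card_eq hcon
    have hRB : R ⊆ B := hRZ.trans (Finset.filter_subset _ _)
    have h1 := c1 R hRB hRc
    have h2 : ∑ b ∈ R, (j * h b + ν + 1) ≤ ∑ _b ∈ R, m :=
      Finset.sum_le_sum fun b hb => (Finset.mem_filter.1 (hRZ hb)).2
    rw [Finset.sum_const, smul_eq_mul, hRc] at h2
    rw [Finset.sum_add_distrib, Finset.sum_add_distrib, ← Finset.mul_sum, Finset.sum_const,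
      Finset.sum_const, smul_eq_mul, smul_eq_mul, hRc] at h2
    have h3 : j * m ≤ j * (ν + ∑ b ∈ R, h b) := Nat.mul_le_mul_left _ h1
    rw [Nat.mul_add] at h3
    omega
  -- claim 3
  by_contra hcon
  push Not at hcon
  have hsw : ∑ b ∈ B, h b = ∑ g ∈ O, (B.filter (fun b => s b (w g) ≠ 0)).card := by
    simp only [hh, Finset.card_filter]
    exact Finset.sum_comm
  have h4 : ∑ g ∈ O, 3 * j * (B.filter (fun b => s b (w g) ≠ 0)).card ≤ ∑ _g ∈ O, κ := by
    refine Finset.sum_le_sum fun g hg => ?_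
    have h5 := hcon g (by simpa [hO] using hg)
    have h6 : {b | b ∈ B ∧ s b (w g) ≠ 0}.ncard = (B.filter (fun b => s b (w g) ≠ 0)).card := by
      rw [← Set.ncard_coe_finset]
      congr 1
      ext b
      simp
    rw [h6] at h5
    omega
  rw [Finset.sum_const, smul_eq_mul, ← Finset.mul_sum, ← hsw, ← hm] at h4
  have h7 : ∑ _b ∈ B \ Z, m ≤ ∑ b ∈ B \ Z, (j * h b + ν) := by
    refine Finset.sum_le_sum fun b hb => ?_
    rw [Finset.mem_sdiff] at hb
    by_contra h8
    exact hb.2 (Finset.mem_filter.2 ⟨hb.1, by omega⟩)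
  rw [Finset.sum_const, smul_eq_mul, Finset.sum_add_distrib, ← Finset.mul_sum, Finset.sum_const,
    smul_eq_mul] at h7
  have h9 : ∑ b ∈ B \ Z, h b ≤ ∑ b ∈ B, h b :=
    Finset.sum_le_sum_of_subset Finset.sdiff_subset
  have h10 : κ + 2 ≤ (B \ Z).card := by
    have : (B \ Z).card = B.card - Z.card :=
      Finset.card_sdiff_of_subset (Finset.filter_subset _ _)
    omega
  set c := (B \ Z).card
  set S := ∑ b ∈ B \ Z, h b
  set T := ∑ b ∈ B, h b
  -- c * m ≤ j * S + c * ν, 3 * j * T ≤ m * κ, S ≤ T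
  have h11 : 3 * (j * S) ≤ m * κ := by
    calc 3 * (j * S) ≤ 3 * (j * T) := by gcongr
      _ = 3 * j * T := by ring
      _ ≤ m * κ := h4
  have h12 : 3 * (c * m) ≤ m * κ + 3 * (c * ν) := by omega
  have h13 : 3 * ν + 3 ≤ 2 * m := by omega
  have h14 : c * (3 * ν + 3) ≤ c * (2 * m) := Nat.mul_le_mul_left _ h13
  have h15 : 3 * (c * m) + 3 * c ≤ m * κ + 2 * (c * m) := by
    nlinarith
  have h16 : (κ + 2) * m ≤ c * m := Nat.mul_le_mul_right _ h10
  nlinarith

end H54.WK
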